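import Pool.Agent.HUK.StmtsA
import Pool.Agent.Helper52_HIK.RTB

set_option autoImplicit false

/-! Squad HUK, row RTV (helper10): explicit bound for the house of a root. -/

namespace Pool.Agent.HUK.H10

open Pool.Agent.HIK
open Polynomial NumberField

variable {K : Type} [Field K] [NumberField K]

theorem house_eval_le (p : (𝓞 K)[X]) (a : 𝓞 K) (V T : ℝ) (G : ℕ) (hT : 1 ≤ T)
    (hV : 0 ≤ V) (ha : house (a : K) ≤ T) (hG : p.natDegree ≤ G)
    (hp : ∀ i, house ((p.coeff i : 𝓞 K) : K) ≤ V) :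
    house ((p.eval a : 𝓞 K) : K) ≤ (G + 1) * V * T ^ G := by
  have hT0 : 0 ≤ T := zero_le_one.trans hT
  rw [eval_eq_sum_range]
  have h1 : ((∑ i ∈ Finset.range (p.natDegree + 1), p.coeff i * a ^ i : 𝓞 K) : K) =
      ∑ i ∈ Finset.range (p.natDegree + 1), ((p.coeff i : 𝓞 K) : K) * (a : K) ^ i := by
    push_cast
    rfl
  rw [h1]
  refine (house_sum_le_sum_house _ _).trans ?_
  have h2 : ∀ i ∈ Finset.range (p.natDegree + 1),
      house (((p.coeff i : 𝓞 K) : K) * (a : K) ^ i) ≤ V * T ^ G := by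
    intro i hi
    refine (house_mul_le _ _).trans (mul_le_mul (hp i) ?_ (house_nonneg _) hV)
    refine (house_pow_le _ _).trans ?_
    refine (pow_le_pow_left₀ (house_nonneg _) ha i).trans ?_
    rw [Finset.mem_range] at hi
    exact pow_le_pow_right₀ hT (by omega)
  refine (Finset.sum_le_sum h2).trans ?_
  rw [Finset.sum_const, Finset.card_range, nsmul_eq_mul, ← mul_assoc]
  refine mul_le_mul_of_nonneg_right (mul_le_mul_of_nonneg_right ?_ hV) (by positivity)
  push_cast
  have : (p.natDegree : ℝ) ≤ G := by exact_mod_cast hG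
  linarith

theorem rtv : RtvStmt := by
  intro K _ _ g D G V T hm hD hG hV hT a y ha hy
  have hV0 : 0 ≤ V := (house_nonneg _).trans (hV 0 0)
  have hT0 : 0 ≤ T := zero_le_one.trans hT
  have hTG : (1 : ℝ) ≤ T ^ G := one_le_pow₀ hT
  unfold house
  refine (pi_norm_le_iff_of_nonneg (by positivity)).mpr fun σ => ?_
  rw [canonicalEmbedding.apply_at]
  set ψ : 𝓞 K →+* ℂ := σ.comp (algebraMap (𝓞 K) K) with hψ
  have hy' : (g.map (evalRingHom a)).eval y = 0 := by
    rw [map_evalRingHom_eval]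
    exact hy
  have hmon : ((g.map (evalRingHom a)).map ψ).Monic := (hm.map _).map _
  have hroot : ((g.map (evalRingHom a)).map ψ).eval (ψ y) = 0 := by
    rw [eval_map_apply, hy', map_zero]
  have hdeg : ((g.map (evalRingHom a)).map ψ).natDegree = g.natDegree := by
    rw [(hm.map _).natDegree_map, hm.natDegree_map]
  have h1 := Pool.Agent.HIK.H52.norm_root_le _ hmon _ hroot
  rw [hdeg] at h1
  have h2 : ∀ k ∈ Finset.range g.natDegree, ‖((g.map (evalRingHom a)).map ψ).coeff k‖ ≤
      (G + 1) * V * T ^ G := by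
    intro k hk
    rw [coeff_map, coeff_map, coe_evalRingHom]
    refine (norm_embedding_le_house (((g.coeff k).eval a : 𝓞 K) : K) σ).trans ?_
    exact house_eval_le _ _ V T G hT hV0 ha (hG k) (hV k)
  have h3 := Finset.sum_le_sum h2
  rw [Finset.sum_const, Finset.card_range, nsmul_eq_mul] at h3
  have hDr : (g.natDegree : ℝ) ≤ D := by exact_mod_cast hD
  have h4 : (g.natDegree : ℝ) * ((G + 1) * V * T ^ G) ≤ D * ((G + 1) * V * T ^ G) :=
    mul_le_mul_of_nonneg_right hDr (by positivity)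
  have h6 : ‖σ (y : K)‖ = ‖ψ y‖ := rfl
  rw [h6]
  calc ‖ψ y‖ ≤ 1 + D * ((G + 1) * V * T ^ G) := by linarith
    _ ≤ T ^ G + D * ((G + 1) * V * T ^ G) := by linarith
    _ = (1 + D * (G + 1) * V) * T ^ G := by ring

end Pool.Agent.HUK.H10
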